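import Mathlib
import Pool.Agent.H7.DkS.Reduction

/-!
# Densest k-Subgraph parameterized by modular-width is W[1]-hard

We give a polynomial-time many-one reduction from `k`-Clique (parameterized by `k`) to the decision
version of Densest `k`-Subgraph in which the modular-width of the produced graph is at most
`(k + 1) ^ 2`.  Polynomial time is meant in the model of `Pool.Agent.H7.Comp.Model`:
while-programs over binary trees with unit cost.

* Graphs on `Fin n` are given to programs by `n` (in unary) and their adjacency matrix.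
* `edgesIn H S` is the number of edges of the induced subgraph `H[S]`.
* `HasWidth H w Set.univ` says that the modular-width of `H` is at most `w`, see
  `Pool.Agent.H7.DkS.Defs`.
-/

namespace Pool.Agent.Results.MP_93e790_lc.W1Hard

open Pool.Agent.H7.Comp Pool.Agent.H7.DkS

/-- The tree coding a natural number in unary. -/
def natTree : ℕ → Tr
  | 0 => .nil
  | n + 1 => .node .nil (natTree n)

/-- The tree coding a list of trees. -/
def listTree : List Tr → Tr
  | [] => .nil
  | a :: l => .node a (listTree l)

open Classical in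
/-- The tree coding a graph on `Fin n`: the number `n` and the adjacency matrix. -/
noncomputable def graphTree {n : ℕ} (G : SimpleGraph (Fin n)) : Tr :=
  .node (natTree n) (listTree (List.ofFn fun u : Fin n =>
    listTree (List.ofFn fun v : Fin n => if G.Adj u v then .node .nil .nil else .nil)))

lemma natTree_eq (n : ℕ) : natTree n = enc n := by
  induction n with
  | zero => rfl
  | succ n ih =>
    show Tr.node .nil (natTree n) = Tr.node .nil (enc n)
    rw [ih]

lemma listTree_map {β : Type} [Enc β] (l : List β) : listTree (l.map enc) = enc l := by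
  induction l with
  | nil => rfl
  | cons a l ih =>
    show Tr.node (enc a) (listTree (l.map enc)) = Tr.node (enc a) (enc l)
    rw [ih]

open Classical in
/-- The adjacency matrix of a graph on `Fin n`, as a list of `n` rows, each a list of `n` bits. -/
noncomputable def adjMatrix {n : ℕ} (G : SimpleGraph (Fin n)) : List (List Bool) :=
  List.ofFn fun u => List.ofFn fun v => decide (G.Adj u v)

lemma graphTree_eq {n : ℕ} (G : SimpleGraph (Fin n)) : graphTree G = enc (n, adjMatrix G) := by
  classical
  have h : enc (n, adjMatrix G) = Tr.node (enc n) (enc (adjMatrix G)) := rfl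
  rw [h, graphTree, natTree_eq, ← listTree_map (adjMatrix G)]
  congr 2
  unfold adjMatrix
  rw [List.map_ofFn]
  congr 1
  funext u
  simp only [Function.comp]
  rw [← listTree_map, List.map_ofFn]
  congr 2
  funext v
  simp only [Function.comp]
  split_ifs with h1
  · simp only [h1, decide_true]; rfl
  · simp only [h1, decide_false]; rfl

lemma matAdj_adjMatrix {n : ℕ} (G : SimpleGraph (Fin n)) (u w : ℕ) :
    matAdj (adjMatrix G) u w ↔ adjNat G u w := by
  classical
  unfold matAdj adjMatrix adjNat
  by_cases hu : u < n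
  · by_cases hw : w < n
    · rw [List.getD_eq_getElem?_getD, List.getD_eq_getElem?_getD]
      simp [hu, hw]
    · rw [List.getD_eq_getElem?_getD, List.getD_eq_getElem?_getD]
      simp [hu, hw]
  · rw [List.getD_eq_getElem?_getD, List.getD_eq_getElem?_getD]
    simp [hu]

lemma ofFn_eq_range_map {β : Type} (N : ℕ) (g : ℕ → β) :
    List.ofFn (fun u : Fin N => g u) = (List.range N).map g := by
  apply List.ext_getElem
  · simp
  · intro i h1 h2
    simp

lemma redFun_spec (n k : ℕ) (G : SimpleGraph (Fin n)) :
    redFun (n, adjMatrix G, k) =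
      ((k + 1) * (k + 1) * WW n k, adjMatrix (redGraph n k G), redK n k, redM n k) := by
  classical
  have hE : matAdj (adjMatrix G) = adjNat G := by
    funext u w
    exact propext (matAdj_adjMatrix G u w)
  have h1 : ∀ u : Fin ((k + 1) * (k + 1) * WW n k),
      (List.ofFn fun v : Fin ((k + 1) * (k + 1) * WW n k) =>
        decide ((redGraph n k G).Adj u v)) = redRow (n, adjMatrix G, k) u := by
    intro u
    unfold redRow redSize
    simp only
    rw [← ofFn_eq_range_map]
    congr 1
    funext v
    unfold redBit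
    simp only [hE]
    rfl
  have h2 : (List.range (redSize (n, adjMatrix G, k))).map (redRow (n, adjMatrix G, k)) =
      adjMatrix (redGraph n k G) := by
    rw [← ofFn_eq_range_map]
    unfold adjMatrix
    show (List.ofFn fun u : Fin ((k + 1) * (k + 1) * WW n k) => redRow (n, _, k) u) = _
    congr 1
    funext u
    exact (h1 u).symm
  unfold redFun
  rw [h2]
  rfl

lemma sz_bits (l : List Bool) : sz l ≤ 4 * l.length + 1 := by
  induction l with
  | nil => simp [sz_nil]
  | cons a l ih =>
    rw [sz_cons, List.length_cons]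
    have := sz_bool_le a
    omega

lemma sz_rows (l : List (List Bool)) (n : ℕ) (h : ∀ r ∈ l, r.length = n) :
    sz l ≤ (4 * n + 2) * l.length + 1 := by
  induction l with
  | nil => simp [sz_nil]
  | cons a l ih =>
    rw [sz_cons, List.length_cons]
    have h1 := sz_bits a
    rw [h a (by simp)] at h1
    have h2 := ih (fun r hr => h r (by simp [hr]))
    have : (4 * n + 2) * (l.length + 1) = (4 * n + 2) * l.length + (4 * n + 2) := by ring
    omega

lemma sz_adjMatrix {n : ℕ} (G : SimpleGraph (Fin n)) : sz (adjMatrix G) ≤ (4 * n + 2) * n + 1 := by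
  have h := sz_rows (adjMatrix G) n (by
    intro r hr
    unfold adjMatrix at hr
    rw [List.mem_ofFn] at hr
    obtain ⟨u, rfl⟩ := hr
    simp)
  have h2 : (adjMatrix G).length = n := by simp [adjMatrix]
  rwa [h2] at h

lemma sz_instance {n : ℕ} (G : SimpleGraph (Fin n)) (k : ℕ) :
    sz (n, adjMatrix G, k) + 2 ≤ (n + k + 2) ^ 5 := by
  have h := sz_adjMatrix G
  rw [sz_pair, sz_pair, sz_nat, sz_nat]
  have h2 : (n + k + 2) ^ 5 ≥ (n + 2) ^ 3 * 4 + k * 8 := by
    have e1 : (n + k + 2) ^ 5 = (n + k + 2) ^ 3 * ((n + k + 2) * (n + k + 2)) := by ring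
    have e2 : (n + 2) ^ 3 ≤ (n + k + 2) ^ 3 := Nat.pow_le_pow_left (by omega) 3
    have e3 : 2 ^ 3 ≤ (n + k + 2) ^ 3 := Nat.pow_le_pow_left (by omega) 3
    rw [e1]
    have e4 : 4 + k ≤ (n + k + 2) * (n + k + 2) := by nlinarith
    calc (n + 2) ^ 3 * 4 + k * 8 ≤ (n + k + 2) ^ 3 * 4 + k * (n + k + 2) ^ 3 := by
          apply Nat.add_le_add
          · exact Nat.mul_le_mul_right _ e2
          · exact Nat.mul_le_mul_left _ e3
      _ = (n + k + 2) ^ 3 * (4 + k) := by ring
      _ ≤ _ := Nat.mul_le_mul_left _ e4
  have h3 : (n + 2) ^ 3 * 4 ≥ 4 * n ^ 2 + 4 * n + 20 := by nlinarith [Nat.zero_le (n ^ 3)]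
  nlinarith

/-- **Densest k-Subgraph parameterized by modular-width is W[1]-hard.**  There is a program `r`
which, given a graph `G` on `n` vertices and a number `k`, computes in time polynomial in `n + k`
a graph `H` and numbers `K`, `M` such that `H` has modular-width at most `(k + 1) ^ 2` and such that
`G` has a clique with `k` vertices if and only if `H` has a set of at most `K` vertices inducing at
least `M` edges. -/
theorem result :
    ∃ (r : Prog) (c : ℕ), ∀ (n k : ℕ) (G : SimpleGraph (Fin n)),
      ∃ (N K M t : ℕ) (H : SimpleGraph (Fin N)),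
        Run r (.node (graphTree G) (natTree k))
          (.node (graphTree H) (.node (natTree K) (natTree M))) t ∧
        t ≤ (n + k + 2) ^ c ∧
        N + K + M ≤ (n + k + 2) ^ c ∧
        HasWidth H ((k + 1) ^ 2) Set.univ ∧
        ((∃ s : Finset (Fin n), G.IsNClique k s) ↔
          ∃ S : Finset (Fin N), S.card ≤ K ∧ M ≤ edgesIn H S) := by
  -- bring the instances into the shape used by `redFun`
  have hpre : PT (fun x : (ℕ × List (List Bool)) × ℕ => (x.1.1, x.1.2, x.2)) :=
    PT.pair (PT.fst.comp PT.fst) (PT.pair (PT.snd.comp PT.fst) PT.snd)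
  have hpost : PT (fun y : ℕ × List (List Bool) × ℕ × ℕ => ((y.1, y.2.1), (y.2.2.1, y.2.2.2))) :=
    PT.pair (PT.pair PT.fst (PT.fst.comp PT.snd))
      (PT.pair (PT.fst.comp (PT.snd.comp PT.snd)) (PT.snd.comp (PT.snd.comp PT.snd)))
  obtain ⟨r, T, ⟨c, hc⟩, ⟨d, hd⟩, hr⟩ := hpost.comp (pt_redFun.comp hpre)
  refine ⟨r, 5 * (c + d), fun n k G => ?_⟩
  obtain ⟨t, ht, hrun⟩ := hr ((n, adjMatrix G), k)
  have hsz : sz ((n, adjMatrix G), k) + 2 ≤ (n + k + 2) ^ 5 := by
    have h := sz_instance G k
    rw [sz_pair, sz_pair] at h ⊢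
    omega
  have hpos : 1 ≤ n + k + 2 := by omega
  have hbound : ∀ e, e ≤ c + d →
      (sz ((n, adjMatrix G), k) + 2) ^ e ≤ (n + k + 2) ^ (5 * (c + d)) := by
    intro e he
    calc (sz ((n, adjMatrix G), k) + 2) ^ e ≤ ((n + k + 2) ^ 5) ^ e := Nat.pow_le_pow_left hsz e
      _ = (n + k + 2) ^ (5 * e) := by rw [pow_mul]
      _ ≤ _ := Nat.pow_le_pow_right hpos (by omega)
  have hsize := hd ((n, adjMatrix G), k)
  simp only at hsize hrun
  rw [redFun_spec] at hrun hsize
  refine ⟨(k + 1) * (k + 1) * WW n k, redK n k, redM n k, t, redGraph n k G, ?_, ?_, ?_, ?_,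
    red_correct n k G⟩
  · rw [graphTree_eq, graphTree_eq, natTree_eq, natTree_eq, natTree_eq]
    exact hrun
  · exact (ht.trans (hc _)).trans (hbound c (by omega))
  · have h5 := hsize.trans (hbound d (by omega))
    generalize (n + k + 2) ^ (5 * (c + d)) = Z at h5 ⊢
    simp only [sz_pair, sz_nat] at h5
    omega
  · have := red_width n k G
    rw [sq]
    exact this

end Pool.Agent.Results.MP_93e790_lc.W1Hard
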